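import Pool.Agent.H93.GT.Targets

/-!
# The dichotomy for the synthesis property (`MP_de9001_an`), row GIV: elements of the classes
-/

set_option autoImplicit false

open Pool.Agent.H93.GT Pool.Agent.H87.Synth Pool.Agent.H85.SC Finset
open Pool.Agent.H93.ET (sg jj iE iA T_KKL T_CUT T_BRK T_SER T_CRI)

namespace Pool.Agent.H48.GT

variable {d : ℕ → ℝ} (P : Pos d)

theorem iA_or (x : ℝ) : iA x = 0 ∨ iA x = 1 := by
  unfold Pool.Agent.H93.ET.iA
  split
  · exact Or.inr rfl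
  · exact Or.inl rfl

theorem iE_or (x : ℝ) : iE x = 0 ∨ iE x = 1 := by
  unfold Pool.Agent.H93.ET.iE
  split
  · exact Or.inl rfl
  · exact Or.inr rfl

variable {P}

theorem mem_AB {n i m : ℕ} {s : Bool} {z : ℤ} (hV : Valid n i) (hi : i ≠ 1) (hm : m < P.N n i)
    (hz : z ∈ P.AB n i m s) : ∃ t, t ∈ P.T n i m ∧ P.g n i t ≠ 0 ∧
      z = pp n i t (iA (P.g n i t)) s := by
  obtain ⟨t, ht, rfl⟩ := Finset.mem_image.1 hz
  exact ⟨t, ht, (P.hT n i m hV hi hm).2.1 t ht, rfl⟩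

theorem mem_EB {n i m : ℕ} {s : Bool} {z : ℤ} (hV : Valid n i) (hi : i ≠ 1) (hm : m < P.N n i)
    (hz : z ∈ P.EB n i m s) : ∃ t, t ∈ P.T n i m ∧ P.g n i t ≠ 0 ∧
      z = pp n i t (iE (P.g n i t)) s := by
  obtain ⟨t, ht, rfl⟩ := Finset.mem_image.1 hz
  exact ⟨t, ht, (P.hT n i m hV hi hm).2.1 t ht, rfl⟩

open Classical in
theorem giv (h1 : T_GSG) (h2 : T_GSZ) : T_GIV := by
  intro d P S hS c z hz
  obtain ⟨hRS, -, -, -, -, hEM⟩ := h1 d P
  obtain ⟨-, -, -, -, -, hN⟩ := h2 d P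
  cases c with
  | blk n i m s =>
    have hz' : z ∈ if n ∈ S ∧ Valid n i ∧ i ≠ 1 ∧ m < P.N n i then
      P.AB n i m s ∪ (if m = 0 then P.EM n i (sg s) else P.EB n i (m - 1) s) else ∅ := hz
    split_ifs at hz' with h hm0
    · obtain ⟨hn, hV, hi, hm⟩ := h
      rcases Finset.mem_union.1 hz' with h3 | h3
      · obtain ⟨t, -, ht, rfl⟩ := mem_AB hV hi hm h3
        exact Or.inr ⟨n, i, t, _, s, hn, hV, hi, ht, iA_or _, rfl⟩
      · obtain ⟨n', i', hR, hV', -, hnn⟩ := hEM n i (sg s) z hV hi h3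
        refine Or.inl ⟨n', i', ?_, hR⟩
        rcases hnn with rfl | ⟨b, rfl, hb⟩
        · exact hn
        · exact hS.2 n' b hb hn
    · obtain ⟨hn, hV, hi, hm⟩ := h
      rcases Finset.mem_union.1 hz' with h3 | h3
      · obtain ⟨t, -, ht, rfl⟩ := mem_AB hV hi hm h3
        exact Or.inr ⟨n, i, t, _, s, hn, hV, hi, ht, iA_or _, rfl⟩
      · obtain ⟨t, -, ht, rfl⟩ := mem_EB hV hi (lt_of_le_of_lt (Nat.sub_le m 1) hm) h3
        exact Or.inr ⟨n, i, t, _, s, hn, hV, hi, ht, iE_or _, rfl⟩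
    · exact absurd hz' (Finset.notMem_empty z)
  | sta n i s =>
    have hz' : z ∈ if n ∈ S ∧ Valid n i ∧ i ≠ 1 then
      P.FA n i (sg s) ∪ P.EB n i (P.N n i - 1) s else ∅ := hz
    split_ifs at hz' with h
    · obtain ⟨hn, hV, hi⟩ := h
      rcases Finset.mem_union.1 hz' with h3 | h3
      · exact Or.inl ⟨n, i, hn, (hRS n i z).1 (Finset.mem_filter.1 h3).1⟩
      · have hNp := (hN n i hV hi).2.1
        obtain ⟨t, -, ht, rfl⟩ := mem_EB hV hi (Nat.sub_lt hNp Nat.one_pos) h3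
        exact Or.inr ⟨n, i, t, _, s, hn, hV, hi, ht, iE_or _, rfl⟩
    · exact absurd hz' (Finset.notMem_empty z)
  | lst n i =>
    have hz' : z ∈ if n ∈ S ∧ Valid n i ∧ i ≠ 2 ^ lg i then P.FS n i 1 ∪ P.FS n i (-1) else ∅ :=
      hz
    split_ifs at hz' with h
    · refine Or.inl ⟨n, i, h.1, (hRS n i z).1 ?_⟩
      rcases Finset.mem_union.1 hz' with h3 | h3
      · exact (Finset.mem_filter.1 h3).1
      · exact (Finset.mem_filter.1 h3).1
    · exact absurd hz' (Finset.notMem_empty z)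
  | ldr n i =>
    have hz' : z ∈ if n ∈ S ∧ Valid n i ∧ i + 1 = 2 ^ (lg i + 1) ∧ n + 2 ^ lg i ∉ S then
      P.FD n i 1 ∪ P.FD n i (-1) else ∅ := hz
    split_ifs at hz' with h
    · refine Or.inl ⟨n, i, h.1, (hRS n i z).1 ?_⟩
      rcases Finset.mem_union.1 hz' with h3 | h3
      · exact (Finset.mem_filter.1 h3).1
      · exact (Finset.mem_filter.1 h3).1
    · exact absurd hz' (Finset.notMem_empty z)
  | par n i t s =>
    have hz' : z ∈ if n ∈ S ∧ Valid n i ∧ i ≠ 1 ∧ P.g n i t ≠ 0 ∧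
      (∀ m, m < P.N n i → t ∉ P.T n i m) then ({pp n i t 0 s, pp n i t 1 s} : Finset ℤ) else ∅ :=
      hz
    split_ifs at hz' with h
    · obtain ⟨hn, hV, hi, ht, -⟩ := h
      rcases Finset.mem_insert.1 hz' with h3 | h3
      · exact Or.inr ⟨n, i, t, 0, s, hn, hV, hi, ht, Or.inl rfl, h3⟩
      · exact Or.inr ⟨n, i, t, 1, s, hn, hV, hi, ht, Or.inr rfl, Finset.mem_singleton.1 h3⟩
    · exact absurd hz' (Finset.notMem_empty z)

end Pool.Agent.H48.GT
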