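import Pool.Agent.H48.GT.GIV

/-!
# The dichotomy for the synthesis property (`MP_de9001_an`), row GLO: locality of the relation
-/

set_option autoImplicit false

open Pool.Agent.H93.GT Pool.Agent.H87.Synth Pool.Agent.H85.SC Finset
open Pool.Agent.H93.ET (sg jj iE iA T_KKL T_CUT T_BRK T_SER T_CRI)

namespace Pool.Agent.H48.GT

/-- the nodes of a label -/
def nds : GC → ℕ × ℕ
  | GC.blk n _ _ _ => (n, n)
  | GC.sta n _ _ => (n, n)
  | GC.lst n _ => (n, n)
  | GC.ldr n i => (n, n + 2 ^ lg i)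
  | GC.par n _ _ _ => (n, n)

theorem ite_iff {α : Type} {p q : Prop} (h : p ↔ q) {_ : Decidable p} {_ : Decidable q} (a b : α) :
    (if p then a else b) = if q then a else b := by
  by_cases hp : p
  · rw [if_pos hp, if_pos (h.1 hp)]
  · rw [if_neg hp, if_neg fun hq => hp (h.2 hq)]

theorem cls_congr {d : ℕ → ℝ} (P : Pos d) (S S' : Set ℕ) (c : GC)
    (h1 : (nds c).1 ∈ S ↔ (nds c).1 ∈ S') (h2 : (nds c).2 ∈ S ↔ (nds c).2 ∈ S') :
    P.cls S c = P.cls S' c := by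
  cases c with
  | blk n i m s =>
    have h : n ∈ S ↔ n ∈ S' := h1
    unfold Pos.cls
    exact ite_iff (by rw [h]) _ _
  | sta n i s =>
    have h : n ∈ S ↔ n ∈ S' := h1
    unfold Pos.cls
    exact ite_iff (by rw [h]) _ _
  | lst n i =>
    have h : n ∈ S ↔ n ∈ S' := h1
    unfold Pos.cls
    exact ite_iff (by rw [h]) _ _
  | ldr n i =>
    have h : n ∈ S ↔ n ∈ S' := h1
    have h' : n + 2 ^ lg i ∈ S ↔ n + 2 ^ lg i ∈ S' := h2
    unfold Pos.cls
    exact ite_iff (by rw [h, h']) _ _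
  | par n i t s =>
    have h : n ∈ S ↔ n ∈ S' := h1
    unfold Pos.cls
    exact ite_iff (by rw [h]) _ _

/-- `z` is a point of a pipe of the node `n` -/
def Adr {d : ℕ → ℝ} (P : Pos d) (z : ℤ) (n : ℕ) : Prop :=
  ∃ i t κ s, Valid n i ∧ i ≠ 1 ∧ P.g n i t ≠ 0 ∧ (κ = 0 ∨ κ = 1) ∧ z = pp n i t κ s

theorem reg_bd {d : ℕ → ℝ} {P : Pos d} (hX : ∀ r, 4 ∣ P.X r ∧ r ≤ P.X r) {n i : ℕ} {z : ℤ}
    (h : P.Reg n i z) : slot n i ≤ z.natAbs ∧ n ≤ slot n i ∧ n + 2 ^ lg i ≤ slot n i := by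
  obtain ⟨hV, hz, -⟩ := h
  have h1 : (slot n i : ℤ) ≤ z := le_trans (by exact_mod_cast (hX (slot n i)).2) hz
  have h2 : (slot n i : ℤ) ≤ (z.natAbs : ℤ) := h1.trans (Int.le_natAbs)
  have hi : i ≠ 0 := Nat.one_le_iff_ne_zero.1 hV.1
  have h3 : 2 ^ lg i ≤ i := Nat.pow_log_le_self 2 hi
  have h4 : i ≤ i ^ 2 := by nlinarith [hV.1]
  have h5 : slot n i = i ^ 2 + n := rfl
  refine ⟨by exact_mod_cast h2, ?_, ?_⟩
  · rw [h5]
    exact Nat.le_add_left _ _
  · rw [h5]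
    omega

open Classical in
theorem glo (h1 : T_GRL) (h2 : T_GUQ) (h3 : T_GSG) (h4 : T_PRE) (h5 : T_GSZ) : T_GLO := by
  intro d P z w
  obtain ⟨hRS, -, -, -, -, hEM⟩ := h3 d P
  obtain ⟨-, -, -, hX, -, hN⟩ := h5 d P
  obtain ⟨hU, -, -, -⟩ := h2 d P
  obtain ⟨-, hps, -⟩ := h4
  -- a bound for the nodes of the pipe points
  obtain ⟨B, hB⟩ : ∃ B, ∀ n, Adr P z n → n ≤ B := by
    by_cases hex : ∃ n, Adr P z n
    · obtain ⟨n0, i0, t0, κ0, s0, hV0, hi0, hg0, hκ0, hz0⟩ := hex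
      refine ⟨n0, ?_⟩
      rintro n ⟨i, t, κ, s, hV, hi, hg, hκ, hz⟩
      exact le_of_eq (hU n i t κ s n0 i0 t0 κ0 s0 hV hi hg hκ hV0 hi0 hg0 hκ0
        (hz.symm.trans hz0)).1
    · exact ⟨0, fun n hn => absurd ⟨n, hn⟩ hex⟩
  have hreg : ∀ n i, P.Reg n i z → n ≤ 2 * z.natAbs + B ∧ n + 2 ^ lg i ≤ 2 * z.natAbs + B := by
    intro n i h
    obtain ⟨h6, h7, h8⟩ := reg_bd hX h
    omega
  have hadr : ∀ n, Adr P z n → n ≤ 2 * z.natAbs + B := fun n hn =>
    (hB n hn).trans (Nat.le_add_left _ _)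
  have key : ∀ (S : Set ℕ) (c : GC), z ∈ P.cls S c →
      (nds c).1 ≤ 2 * z.natAbs + B ∧ (nds c).2 ≤ 2 * z.natAbs + B := by
    intro S c hz
    cases c with
    | blk n i m s =>
      have hz' : z ∈ if n ∈ S ∧ Valid n i ∧ i ≠ 1 ∧ m < P.N n i then
        P.AB n i m s ∪ (if m = 0 then P.EM n i (sg s) else P.EB n i (m - 1) s) else ∅ := hz
      have hgoal : n ≤ 2 * z.natAbs + B := by
        split_ifs at hz' with h hm0
        · obtain ⟨hn, hV, hi, hm⟩ := h
          rcases Finset.mem_union.1 hz' with h6 | h6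
          · obtain ⟨t, -, ht, hzt⟩ := mem_AB hV hi hm h6
            exact hadr n ⟨i, t, _, s, hV, hi, ht, iA_or _, hzt⟩
          · obtain ⟨n', i', hR, hV', hsl, -⟩ := hEM n i (sg s) z hV hi h6
            obtain ⟨h7, -, -⟩ := reg_bd hX hR
            obtain ⟨-, -, -, h8, h9⟩ := hps n i hV hi
            rw [hsl] at h7
            omega
        · obtain ⟨hn, hV, hi, hm⟩ := h
          rcases Finset.mem_union.1 hz' with h6 | h6
          · obtain ⟨t, -, ht, hzt⟩ := mem_AB hV hi hm h6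
            exact hadr n ⟨i, t, _, s, hV, hi, ht, iA_or _, hzt⟩
          · obtain ⟨t, -, ht, hzt⟩ := mem_EB hV hi (lt_of_le_of_lt (Nat.sub_le m 1) hm) h6
            exact hadr n ⟨i, t, _, s, hV, hi, ht, iE_or _, hzt⟩
        · exact absurd hz' (Finset.notMem_empty z)
      exact ⟨hgoal, hgoal⟩
    | sta n i s =>
      have hz' : z ∈ if n ∈ S ∧ Valid n i ∧ i ≠ 1 then
        P.FA n i (sg s) ∪ P.EB n i (P.N n i - 1) s else ∅ := hz
      have hgoal : n ≤ 2 * z.natAbs + B := by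
        split_ifs at hz' with h
        · obtain ⟨hn, hV, hi⟩ := h
          rcases Finset.mem_union.1 hz' with h6 | h6
          · exact (hreg n i ((hRS n i z).1 (Finset.mem_filter.1 h6).1)).1
          · have hNp := (hN n i hV hi).2.1
            obtain ⟨t, -, ht, hzt⟩ := mem_EB hV hi (Nat.sub_lt hNp Nat.one_pos) h6
            exact hadr n ⟨i, t, _, s, hV, hi, ht, iE_or _, hzt⟩
        · exact absurd hz' (Finset.notMem_empty z)
      exact ⟨hgoal, hgoal⟩
    | lst n i =>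
      have hz' : z ∈ if n ∈ S ∧ Valid n i ∧ i ≠ 2 ^ lg i then
        P.FS n i 1 ∪ P.FS n i (-1) else ∅ := hz
      have hgoal : n ≤ 2 * z.natAbs + B := by
        split_ifs at hz' with h
        · rcases Finset.mem_union.1 hz' with h6 | h6
          · exact (hreg n i ((hRS n i z).1 (Finset.mem_filter.1 h6).1)).1
          · exact (hreg n i ((hRS n i z).1 (Finset.mem_filter.1 h6).1)).1
        · exact absurd hz' (Finset.notMem_empty z)
      exact ⟨hgoal, hgoal⟩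
    | ldr n i =>
      have hz' : z ∈ if n ∈ S ∧ Valid n i ∧ i + 1 = 2 ^ (lg i + 1) ∧ n + 2 ^ lg i ∉ S then
        P.FD n i 1 ∪ P.FD n i (-1) else ∅ := hz
      split_ifs at hz' with h
      · rcases Finset.mem_union.1 hz' with h6 | h6
        · exact hreg n i ((hRS n i z).1 (Finset.mem_filter.1 h6).1)
        · exact hreg n i ((hRS n i z).1 (Finset.mem_filter.1 h6).1)
      · exact absurd hz' (Finset.notMem_empty z)
    | par n i t s =>
      have hz' : z ∈ if n ∈ S ∧ Valid n i ∧ i ≠ 1 ∧ P.g n i t ≠ 0 ∧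
        (∀ m, m < P.N n i → t ∉ P.T n i m) then ({pp n i t 0 s, pp n i t 1 s} : Finset ℤ)
        else ∅ := hz
      have hgoal : n ≤ 2 * z.natAbs + B := by
        split_ifs at hz' with h
        · obtain ⟨hn, hV, hi, ht, -⟩ := h
          rcases Finset.mem_insert.1 hz' with h6 | h6
          · exact hadr n ⟨i, t, 0, s, hV, hi, ht, Or.inl rfl, h6⟩
          · exact hadr n ⟨i, t, 1, s, hV, hi, ht, Or.inr rfl, Finset.mem_singleton.1 h6⟩
        · exact absurd hz' (Finset.notMem_empty z)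
      exact ⟨hgoal, hgoal⟩
  refine ⟨Finset.range (2 * z.natAbs + B + 1), fun S S' hSS => ?_⟩
  have half : ∀ T T' : Set ℕ, (∀ k ∈ Finset.range (2 * z.natAbs + B + 1), k ∈ T ↔ k ∈ T') →
      P.grel T z w → P.grel T' z w := by
    intro T T' hTT h
    rw [(h1 d P T).1] at h
    rw [(h1 d P T').1]
    rcases h with h | ⟨c, hc1, hc2⟩
    · exact Or.inl h
    · obtain ⟨h6, h7⟩ := key T c hc1
      have h8 : P.cls T c = P.cls T' c := cls_congr P T T' c
        (hTT _ (Finset.mem_range.2 (Nat.lt_succ_of_le h6)))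
        (hTT _ (Finset.mem_range.2 (Nat.lt_succ_of_le h7)))
      rw [h8] at hc1 hc2
      exact Or.inr ⟨c, hc1, hc2⟩
  exact ⟨half S S' hSS, half S' S fun k hk => (hSS k hk).symm⟩

end Pool.Agent.H48.GT
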